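import Pool.Agent.Lib.MP_b6ada6_gt.Cor
import Pool.Agent.Lib.MP_b6ada6_gt.Ex

namespace Pool.Agent.Results.MP_b6ada6_gt.TubeObstruction

open Pool.Agent.Lib.MP_b6ada6_gt Real

/-- Let the level surfaces of `t` form a product foliation of hyperbolic space, each leaf being
invariant under a loxodromic isometry of complex length `l + i θ`. Then four times the integral of
the systoles of the tori around the core is at most the area of the last torus plus the integral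
of the absolute mean curvature of the leaves over the tube. -/
theorem result (l θ : ℝ) (hl : 0 < l) (t : (Fin 3 → ℝ) → ℝ) (ht : ContDiffOn ℝ 2 t H3)
    (h0 : ∀ p ∈ H3, fderiv ℝ t p ≠ 0) (hi : ∀ p ∈ H3, t (lox l θ p) = t p)
    (P : Type) [TopologicalSpace P] (Φ : H3 ≃ₜ P × ℝ) (hΦ : ∀ p : H3, (Φ p).2 = t p)
    (R : ℝ) (hR : 0 ≤ R) :
    4 * ∫ r in (0 : ℝ)..R, sys l θ r ≤ 2 * π * l * sinh R * cosh R +
      ∫ r in (0 : ℝ)..R, ∫ z in (0 : ℝ)..l, ∫ φ in (0 : ℝ)..2 * π,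
        |mc t (fermi r φ z)| * (sinh r * cosh r) :=
  main ht h0 hl hi Φ hΦ hR

/-- Consequence for minimal leaves: a short geodesic twists by less than five times its length. -/
theorem minimal_leaves (l θ : ℝ) (hl : 0 < l) (t : (Fin 3 → ℝ) → ℝ) (ht : ContDiffOn ℝ 2 t H3)
    (h0 : ∀ p ∈ H3, fderiv ℝ t p ≠ 0) (hi : ∀ p ∈ H3, t (lox l θ p) = t p)
    (P : Type) [TopologicalSpace P] (Φ : H3 ≃ₜ P × ℝ) (hΦ : ∀ p : H3, (Φ p).2 = t p)
    (hm : ∀ p ∈ H3, mc t p = 0) (h8 : l ≤ 1 / 8) : ∃ m : ℤ, |θ - 2 * π * m| < 5 * l :=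
  twist hl h8 fun R hR => by
    simpa [fun r φ z => hm _ (fermi_mem r φ z)] using result l θ hl t ht h0 hi P Φ hΦ R hR

/-- Consequence for mean convex leaves. -/
theorem mean_convex_leaves (l θ : ℝ) (hl : 0 < l) (t : (Fin 3 → ℝ) → ℝ) (ht : ContDiffOn ℝ 2 t H3)
    (h0 : ∀ p ∈ H3, fderiv ℝ t p ≠ 0) (hi : ∀ p ∈ H3, t (lox l θ p) = t p)
    (P : Type) [TopologicalSpace P] (Φ : H3 ≃ₜ P × ℝ) (hΦ : ∀ p : H3, (Φ p).2 = t p)
    (hm : ∀ p ∈ H3, 0 ≤ mc t p) : |θ| < 12 * l ∨ 1 < |θ| :=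
  twist' hl fun R hR => by
    have h := result l θ hl t ht h0 hi P Φ hΦ R hR
    simp only [fun r φ z => abs_of_nonneg (hm _ (fermi_mem r φ z))] at h
    linarith [total ht h0 hl hi hR]

/-- The hypotheses of `result` can be met for every complex length. -/
theorem hypotheses_hold (l θ : ℝ) (hl : 0 < l) : ∃ t : (Fin 3 → ℝ) → ℝ, ContDiffOn ℝ 2 t H3 ∧
    (∀ p ∈ H3, fderiv ℝ t p ≠ 0) ∧ (∀ p ∈ H3, t (lox l θ p) = t p) ∧
    ∃ Φ : H3 ≃ₜ (ℝ × ℝ) × ℝ, ∀ p : H3, (Φ p).2 = t p :=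
  exists_foliation l θ hl

end Pool.Agent.Results.MP_b6ada6_gt.TubeObstruction
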